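import Pool.Agent.L5helper31.TG.Defs2
import Pool.Agent.L5helper76.TGExVol
import Pool.Agent.L5helper26.TG.Bary

/-!
# The polytopes of `P^1 × P^(n-1)` in all coordinates (U4, job for helper31, MP_d76efa_ag)
-/

set_option autoImplicit false

open MeasureTheory Finset

namespace Pool.Agent.L5helper31.TG

/-- The change of coordinates by a matrix of determinant `± 1`. -/
lemma U4_transport {n : ℕ} (B : Matrix (Fin n) (Fin n) ℝ) (hB : |B.det| = 1)
    (S : Set (Fin n → ℝ)) (hS : IsCompact S) (hc : ∀ i, ∫ y in S, y i = 0) :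
    Bornology.IsBounded {x | B.mulVec x ∈ S} ∧ volume.real {x | B.mulVec x ∈ S} = volume.real S ∧
      ∀ i, ∫ x in {x | B.mulVec x ∈ S}, x i = 0 := by
  have hne : LinearMap.det (Matrix.toLin' B) ≠ 0 := by
    rw [LinearMap.det_toLin']
    intro h
    rw [h, abs_zero] at hB
    exact zero_ne_one hB
  let e0 : (Fin n → ℝ) ≃ₗ[ℝ] (Fin n → ℝ) := LinearMap.equivOfDetNeZero _ hne
  let e : (Fin n → ℝ) ≃L[ℝ] (Fin n → ℝ) := e0.toContinuousLinearEquiv
  have he : ∀ x, e x = B.mulVec x := fun x => rfl
  have hmp : MeasurePreserving e (volume : Measure (Fin n → ℝ)) volume := by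
    refine ⟨e.continuous.measurable, ?_⟩
    have h := Real.map_linearMap_volume_pi_eq_smul_volume_pi hne
    have h2 : (e : (Fin n → ℝ) → (Fin n → ℝ)) = (Matrix.toLin' B) := by
      ext x; rfl
    rw [h2, h, LinearMap.det_toLin', abs_inv, hB]
    simp
  have hset : {x | B.mulVec x ∈ S} = e ⁻¹' S := by
    ext x
    simp [he]
  have hemb : MeasurableEmbedding e := e.toHomeomorph.measurableEmbedding
  rw [hset]
  refine ⟨?_, ?_, fun i => ?_⟩
  · have h : e ⁻¹' S = e.symm '' S := by
      ext x
      constructor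
      · intro hx
        exact ⟨e x, hx, by simp⟩
      · rintro ⟨y, hy, rfl⟩
        simpa using hy
    rw [h]
    exact (hS.image e.symm.continuous).isBounded
  · rw [measureReal_def, measureReal_def, hmp.measure_preimage hS.measurableSet.nullMeasurableSet]
  · have h1 := hmp.setIntegral_preimage_emb hemb (fun y => e.symm y i) S
    simp only [ContinuousLinearEquiv.symm_apply_apply] at h1
    rw [h1]
    let g : (Fin n → ℝ) →ₗ[ℝ] ℝ := (LinearMap.proj i).comp e.symm.toLinearEquiv.toLinearMap
    have hg : ∀ y, e.symm y i = ∑ k, y k * g (fun j => if k = j then 1 else 0) := by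
      intro y
      have := LinearMap.pi_apply_eq_sum_univ g y
      simpa [g] using this
    simp only [hg]
    rw [integral_finsetSum]
    · refine Finset.sum_eq_zero fun k _ => ?_
      rw [integral_mul_const, hc k, zero_mul]
    · intro k _
      exact (by fun_prop : Continuous fun y : Fin n → ℝ =>
        y k * g (fun j => if k = j then 1 else 0)).continuousOn.integrableOn_compact hS

lemma U4_zero {n : ℕ} (hn : 2 ≤ n) (M : Fin n → (Fin n → ℤ)) (hd : (Matrix.of M).det ≠ 0)
    (j : Fin n) : (0 : Fin n → ℤ) ∉ prodL M j := by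
  have key : ∀ v : Fin n → ℤ, ∑ i, v i • M i = 0 → v = 0 := by
    intro v hv
    refine Matrix.eq_zero_of_vecMul_eq_zero hd ?_
    ext k
    have := congrFun hv k
    simpa [Matrix.vecMul, dotProduct, Finset.sum_apply] using this
  have hs : ∀ i, M i ≠ 0 := by
    intro i h
    have := key (Pi.single i 1) (by
      rw [Finset.sum_eq_single i]
      · simp [h]
      · intro b _ hb; simp [Pi.single_eq_of_ne hb]
      · intro h'; exact absurd (mem_univ _) h')
    have := congrFun this i
    simp at this
  intro h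
  simp only [prodL, Finset.mem_insert, Finset.mem_image, Finset.mem_univ, true_and] at h
  rcases h with h | h | ⟨i, h⟩
  · exact hs j (by simpa using h.symm)
  · have h0 : ∑ i ∈ univ.erase j, M i = 0 := neg_eq_zero.mp h.symm
    have := key (fun i => if i = j then 0 else 1) (by
      rw [← Finset.add_sum_erase _ _ (mem_univ j)]
      simp only [if_true, zero_smul, zero_add]
      rw [← h0]
      refine Finset.sum_congr rfl fun i hi => ?_
      simp [(Finset.mem_erase.1 hi).1])
    obtain ⟨k, hk⟩ : ∃ k : Fin n, k ≠ j := by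
      have : Nontrivial (Fin n) := Fin.nontrivial_iff_two_le.2 hn
      exact exists_ne j
    have := congrFun this k
    simp [hk] at this
  · exact hs i h

/-- U4. -/
theorem prod_all {n : ℕ} (hn : 2 ≤ n) (M : Fin n → (Fin n → ℤ)) (hd : |(Matrix.of M).det| = 1)
    (j : Fin n) : (0 : Fin n → ℤ) ∉ prodL M j ∧ Bornology.IsBounded (polytope (prodL M j)) ∧
    (∀ i, ∫ x in polytope (prodL M j), x i = 0) ∧
    (n.factorial : ℝ) * volume.real (polytope (prodL M j)) = 2 * (n : ℝ) ^ n := by
  refine ⟨U4_zero hn M (fun h => by rw [h] at hd; simp at hd) j, ?_⟩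
  obtain ⟨m, rfl⟩ : ∃ m, n = m + 1 := ⟨n - 1, by omega⟩
  have hm : 1 ≤ m := by omega
  let σ : Equiv.Perm (Fin (m + 1)) := Equiv.swap 0 j
  let B : Matrix (Fin (m + 1)) (Fin (m + 1)) ℝ :=
    (((Matrix.of M).submatrix σ id).map (Int.castRingHom ℝ))
  have hBdet : |B.det| = 1 := by
    have h1 : B.det = (((Matrix.of M).submatrix σ id).det : ℝ) :=
      (RingHom.map_det (Int.castRingHom ℝ) ((Matrix.of M).submatrix σ id)).symm
    rw [h1, Matrix.det_permute]
    have h2 : |((Equiv.Perm.sign σ : ℤ) * (Matrix.of M).det : ℤ)| = 1 := by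
      rw [abs_mul, hd, mul_one]
      rcases Int.units_eq_one_or (Equiv.Perm.sign σ) with h | h <;> rw [h] <;> rfl
    rw [← Int.cast_abs]
    exact_mod_cast h2
  have hBx : ∀ x a, B.mulVec x a = dot (M (σ a)) x := by
    intro x a
    simp [B, Matrix.mulVec, dotProduct, dot]
  have hσ0 : σ 0 = j := Equiv.swap_apply_left 0 j
  have hsum : ∀ f : Fin (m + 1) → ℝ, ∑ i : Fin m, f (σ i.succ) = ∑ i ∈ univ.erase j, f i := by
    intro f
    have h1 := Equiv.sum_comp σ f
    rw [Fin.sum_univ_succ, hσ0, ← Finset.add_sum_erase _ _ (mem_univ j)] at h1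
    linarith
  have hset : polytope (prodL M j) = {x | B.mulVec x ∈ polytope (exL m)} := by
    ext x
    rw [Set.mem_ofPred_eq, mem_ex]
    simp only [hBx, hσ0]
    rw [hsum fun i => dot (M i) x]
    have e1 : dot (-∑ i ∈ univ.erase j, M i) x = -∑ i ∈ univ.erase j, dot (M i) x := by
      rw [dot_neg, dot_sum]
    constructor
    · intro h
      have a1 := h (-M j) (by simp [prodL])
      have a2 := h (-∑ i ∈ univ.erase j, M i) (by simp [prodL])
      have a3 : ∀ i, -1 ≤ dot (M i) x := fun i => h (M i) (by simp [prodL])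
      rw [dot_neg] at a1
      rw [e1] at a2
      exact ⟨a3 j, by linarith, by linarith, fun i => a3 _⟩
    · rintro ⟨b1, b2, b3, b4⟩ l hl
      simp only [prodL, Finset.mem_insert, Finset.mem_image, Finset.mem_univ, true_and] at hl
      rcases hl with rfl | rfl | ⟨i, rfl⟩
      · rw [dot_neg]; linarith
      · rw [e1]; linarith
      · obtain ⟨a, ha⟩ := σ.surjective i
        rw [← ha]
        refine Fin.cases ?_ (fun k => ?_) a
        · rw [hσ0]; exact b1
        · exact b4 k
  obtain ⟨_, _, hv⟩ := ex_vol m hm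
  obtain ⟨t1, t2, t3⟩ := U4_transport B hBdet (polytope (exL m)) (ex_compact m) (ex_bary m hm)
  rw [hset]
  refine ⟨t1, t3, ?_⟩
  rw [t2, hv]
  push_cast
  ring

end Pool.Agent.L5helper31.TG
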